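import Pool.Agent.Y674.HY.Stm2
import Pool.Agent.Y927.HY.Liou

set_option autoImplicit false

/-! Project HY, part 2, job HY2-RED: reduction to monic polynomials and positive `x`. -/

namespace Pool.Agent.Y921.HY

open Polynomial NumberField Pool.Agent.Y674.HY

/-- the monic polynomial with the roots `b r`, `b = ±a`, `b x > 0` -/
theorem normal {e : ℕ} (he : 1 ≤ e) (f : ℤ[X]) (hf : f ≠ 0) (hdeg : f.natDegree = e) (x : ℤ)
    (hx : x ≠ 0) : ∃ (g : ℤ[X]) (b c : ℤ), g.Monic ∧ g.natDegree = e ∧ c ≠ 0 ∧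
      g.comp (C b * X) = C c * f ∧ (b = f.leadingCoeff ∨ b = -f.leadingCoeff) ∧ 0 < b * x := by
  have ha : f.leadingCoeff ≠ 0 := leadingCoeff_ne_zero.2 hf
  set g0 := f.integralNormalization with hg0
  have hm : g0.Monic := monic_integralNormalization hf
  have hd : g0.natDegree = e := by rw [hg0, natDegree_integralNormalization, hdeg]
  have hcomp : g0.comp (C f.leadingCoeff * X) = C (f.leadingCoeff ^ (e - 1)) * f := by
    have := integralNormalization_eval₂_leadingCoeff_mul (p := f) (by omega) (C : ℤ →+* ℤ[X]) X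
    rw [eval₂_C_X, hdeg] at this
    rw [comp, hg0, this, C_pow]
  rcases lt_or_gt_of_ne (mul_ne_zero ha hx) with h | h
  · refine ⟨(-1) ^ g0.natDegree * g0.comp (-X), -f.leadingCoeff,
      (-1) ^ e * f.leadingCoeff ^ (e - 1), hm.neg_one_pow_natDegree_mul_comp_neg_X, ?_, ?_, ?_,
      Or.inr rfl, ?_⟩
    · have h1 : ((-1 : ℤ[X]) ^ g0.natDegree) = C ((-1) ^ g0.natDegree) := by
        rw [C_pow, C_neg, C_1]
      rw [h1, natDegree_C_mul (pow_ne_zero _ (by norm_num)), natDegree_comp, natDegree_neg,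
        natDegree_X, mul_one, hd]
    · exact mul_ne_zero (pow_ne_zero _ (by norm_num)) (pow_ne_zero _ ha)
    · rw [mul_comp, comp_assoc, neg_comp, X_comp, hd, C_neg]
      have h2 : -(-C f.leadingCoeff * X) = C f.leadingCoeff * X := by ring
      rw [h2, hcomp]
      simp only [C_mul, C_pow, C_neg, C_1, pow_comp, neg_comp, one_comp, mul_assoc]
    · linarith
  · exact ⟨g0, f.leadingCoeff, _, hm, hd, pow_ne_zero _ ha, hcomp, Or.inl rfl, h⟩

/-- the same over a field -/
theorem overField {f g : ℤ[X]} {b c : ℤ} (hb : b ≠ 0) (hcomp : g.comp (C b * X) = C c * f)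
    (F : Type) [Field F] [CharZero F] : g.map (Int.castRingHom F) =
      C (c : F) * (f.map (Int.castRingHom F)).comp (C (b : F)⁻¹ * X) := by
  have hbF : (b : F) ≠ 0 := by exact_mod_cast hb
  have h1 := congrArg (fun q : ℤ[X] => (q.map (Int.castRingHom F)).comp (C (b : F)⁻¹ * X)) hcomp
  simp only [Polynomial.map_comp, Polynomial.map_mul, map_C, map_X, Int.coe_castRingHom, mul_comp,
    C_comp, comp_assoc, X_comp] at h1
  rw [← h1, ← mul_assoc, ← C_mul, mul_inv_cancel₀ hbF, C_1, one_mul, comp_X]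

/-- separability under a linear substitution -/
theorem sep_lin {F : Type} [Field F] {p : F[X]} (hp : p.Separable) {c t : F} (hc : c ≠ 0)
    (ht : t ≠ 0) : (C c * p.comp (C t * X)).Separable := by
  obtain ⟨u, v, huv⟩ := hp
  refine ⟨C c⁻¹ * u.comp (C t * X), C c⁻¹ * C t⁻¹ * v.comp (C t * X), ?_⟩
  have h1 := congrArg (fun q : F[X] => q.comp (C t * X)) huv
  simp only [add_comp, mul_comp, one_comp] at h1
  rw [derivative_C_mul, derivative_comp, derivative_C_mul, derivative_X, mul_one]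
  have e1 : C c⁻¹ * C c = (1 : F[X]) := by rw [← C_mul, inv_mul_cancel₀ hc, C_1]
  have e2 : C t⁻¹ * C t = (1 : F[X]) := by rw [← C_mul, inv_mul_cancel₀ ht, C_1]
  linear_combination h1 + (u.comp (C t * X) * p.comp (C t * X)) * e1 +
    (v.comp (C t * X) * (derivative p).comp (C t * X)) * (C c⁻¹ * C c * e2 + e1)

/-- HY2-RED -/
theorem red (h : RUNM) : RUNGE := by
  intro e he
  obtain ⟨C₀, k₀, hC⟩ := h e he
  refine ⟨C₀ * 2 ^ k₀, k₀, ?_⟩
  intro f H hdeg hsep hH hcoef x K _ _ hK D ρ hD hdvd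
  by_cases hx : x = 0
  · subst hx
    simp only [Int.cast_zero, abs_zero]
    positivity
  have hf0 : f ≠ 0 := by
    rintro rfl
    rw [natDegree_zero] at hdeg
    omega
  obtain ⟨g, b, c, hgm, hgd, hc, hcomp, hb, hbx⟩ := normal (by omega) f hf0 hdeg x hx
  have ha : f.leadingCoeff ≠ 0 := leadingCoeff_ne_zero.2 hf0
  have hb0 : b ≠ 0 := by
    rcases hb with rfl | rfl
    · exact ha
    · exact neg_ne_zero.2 ha
  have hbK : (b : K) ≠ 0 := by exact_mod_cast hb0
  have hH1 : (1 : ℝ) ≤ H := by exact_mod_cast hH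
  have key := hC g hgm hgd (by
      rw [overField hb0 hcomp ℚ]
      exact sep_lin hsep (by exact_mod_cast hc) (inv_ne_zero (by exact_mod_cast hb0)))
    (2 * H) (by linarith) (by
      intro r hr
      have hr0 : (g.map (Int.castRingHom ℂ)).eval r = 0 := by
        unfold Rt at hr
        rw [Multiset.mem_toFinset, mem_roots'] at hr
        exact hr.2
      have hbC : (b : ℂ) ≠ 0 := by exact_mod_cast hb0
      have hcC : (c : ℂ) ≠ 0 := by exact_mod_cast hc
      rw [overField hb0 hcomp ℂ, eval_mul, eval_C, eval_comp, eval_mul, eval_C, eval_X] at hr0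
      have h1 := (mul_eq_zero.1 hr0).resolve_left hcC
      have h2 := Pool.Agent.Y927.HY.root_bound f H hcoef hf0 _ h1
      have h3 : ‖(f.leadingCoeff : ℂ) * ((b : ℂ)⁻¹ * r)‖ = ‖r‖ := by
        have h4 : ‖(f.leadingCoeff : ℂ)‖ = ‖(b : ℂ)‖ := by
          rcases hb with rfl | rfl
          · rfl
          · rw [Int.cast_neg, norm_neg]
        rw [norm_mul, h4, ← norm_mul, ← mul_assoc, mul_inv_cancel₀ hbC, one_mul]
      rw [h3] at h2
      exact h2)
    (b * x) hbx K hK (b * D) (ρ.comp (C (b : K)⁻¹ * X)) (mul_ne_zero hbK hD) (by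
      rw [overField hb0 hcomp K]
      obtain ⟨q, hq⟩ := hdvd
      have h1 := congrArg (fun q : K[X] => q.comp (C (b : K)⁻¹ * X)) hq
      simp only [sub_comp, mul_comp, pow_comp, C_comp, X_comp] at h1
      have hcK : (c : K) ≠ 0 := by exact_mod_cast hc
      refine ⟨C (c : K)⁻¹ * C (b : K) * q.comp (C (b : K)⁻¹ * X), ?_⟩
      have e1 : C (c : K) * C (c : K)⁻¹ = (1 : K[X]) := by
        rw [← C_mul, mul_inv_cancel₀ hcK, C_1]
      have e2 : C (b : K) * C (b : K)⁻¹ = (1 : K[X]) := by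
        rw [← C_mul, mul_inv_cancel₀ hbK, C_1]
      have e3 : C ((b : K) * D) = C (b : K) * C D := C_mul
      have e4 : C (((b * x : ℤ) : K)) = C (b : K) * C (x : K) := by
        rw [← C_mul]
        push_cast
        rfl
      rw [e3, e4]
      linear_combination C (b : K) * h1 - X * e2 -
        (f.map (Int.castRingHom K)).comp (C (b : K)⁻¹ * X) * C (b : K) *
          q.comp (C (b : K)⁻¹ * X) * e1)
  have h5 : |(x : ℝ)| ≤ ((b * x : ℤ) : ℝ) := by
    have h6 : |x| ≤ b * x := by
      have h7 : b * x = |b| * |x| := by rw [← abs_mul, abs_of_pos hbx]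
      rw [h7]
      exact le_mul_of_one_le_left (abs_nonneg _) (Int.one_le_abs hb0)
    exact_mod_cast h6
  refine h5.trans (key.trans (le_of_eq ?_))
  push_cast
  rw [mul_pow]
  ring

end Pool.Agent.Y921.HY
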